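import Mathlib

set_option autoImplicit false

open MeasureTheory

namespace Pool.Agent.Results.MP_cf0a62_gt.NonzeroIncrementAllDims

/-! ### Definitions

Points of `S^n` are unit vectors `x : Fin (n + 1) → ℝ` of `ℝ^(n+1)`. -/

/-- A finite oriented `(n-1)`-dimensional pseudomanifold without boundary, on the vertex set `V`.
It is given by its facets (the `(n-1)`-dimensional simplices), each listed once as an ordered
`n`-tuple of distinct vertices, and by a sign `or F = ±1` for every facet `F`: the positive
orientation of the simplex is `or F` times the one given by the order of the tuple. All simplices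
are faces of facets. -/
structure OrientedPseudomanifold (V : Type) (n : ℕ) where
  /-- the facets -/
  facets : Finset (Fin n → V)
  /-- the orientation sign -/
  or : (Fin n → V) → ℤ
  or_eq : ∀ F ∈ facets, or F = 1 ∨ or F = -1
  nonempty : facets.Nonempty
  /-- the vertices of a facet are distinct -/
  inj : ∀ F ∈ facets, Function.Injective F
  /-- every vertex lies in a facet -/
  cover : ∀ v : V, ∃ F ∈ facets, v ∈ Set.range F
  /-- different facets have different vertex sets -/
  distinct : ∀ F ∈ facets, ∀ G ∈ facets, Set.range F = Set.range G → F = G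
  /-- no boundary, pseudomanifold: every codimension one face (the face of `F` opposite to its
  `i`-th vertex) lies in exactly one further facet `G` -/
  two : ∀ F ∈ facets, ∀ i : Fin n, ∃! G, G ∈ facets ∧ G ≠ F ∧ ∀ k, k ≠ i → F k ∈ Set.range G
  /-- two facets with a common codimension one face induce opposite orientations on it: if
  `G ∘ τ` differs from `F` in the `i`-th vertex only, then `G ∘ τ` has orientation sign `- or F` -/
  oriented : ∀ F ∈ facets, ∀ G ∈ facets, F ≠ G → ∀ (i : Fin n) (τ : Equiv.Perm (Fin n)),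
    (∀ k, k ≠ i → G (τ k) = F k) → or G * (Equiv.Perm.sign τ : ℤ) = - or F
  /-- strong connectedness -/
  connected : ∀ F ∈ facets, ∀ G ∈ facets,
    Relation.ReflTransGen (fun A B => B ∈ facets ∧ ∃ i, ∀ k, k ≠ i → A k ∈ Set.range B) F G

/-- `x ∈ S^n` -/
def OnSphere {n : ℕ} (x : Fin (n + 1) → ℝ) : Prop := ∑ k, x k ^ 2 = 1

/-- A polyhedron of type `K` in `S^n`, given by the images `P v ∈ S^n` of the vertices: the vertex
vectors of every facet (hence of every simplex) are linearly independent; the simplex is sent to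
the intersection of `S^n` with the cone they span. -/
def IsPolyhedron {V : Type} {n : ℕ} (K : OrientedPseudomanifold V n)
    (P : V → Fin (n + 1) → ℝ) : Prop :=
  (∀ v, OnSphere (P v)) ∧ ∀ F ∈ K.facets, LinearIndependent ℝ (fun i => P (F i))

/-- The image `P(K)` in `S^n`. -/
def image {V : Type} {n : ℕ} (K : OrientedPseudomanifold V n)
    (P : V → Fin (n + 1) → ℝ) : Set (Fin (n + 1) → ℝ) :=
  {x | OnSphere x ∧ ∃ F ∈ K.facets, ∃ c : Fin n → ℝ, (∀ i, 0 ≤ c i) ∧ x = ∑ i, c i • P (F i)}

/-- The configuration space of `P₀`: all polyhedra of type `K` with the same edge lengths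
(spherical distances `arccos ⟨P v, P w⟩` of adjacent vertices) as `P₀`, as a subset of the product
of copies of `S^n ⊆ ℝ^(n+1)` indexed by the vertices. -/
def Conf {V : Type} {n : ℕ} (K : OrientedPseudomanifold V n)
    (P₀ : V → Fin (n + 1) → ℝ) : Set (V → Fin (n + 1) → ℝ) :=
  {P | IsPolyhedron K P ∧ ∀ F ∈ K.facets, ∀ i j,
    Real.arccos (P (F i) ⬝ᵥ P (F j)) = Real.arccos (P₀ (F i) ⬝ᵥ P₀ (F j))}

/-- `P₀` is flexible: some continuous path in its configuration space starting at `P₀` is not
induced by a continuous family of isometries of `S^n` (orthogonal matrices). -/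
def Flexible {V : Type} {n : ℕ} (K : OrientedPseudomanifold V n)
    (P₀ : V → Fin (n + 1) → ℝ) : Prop :=
  ∃ γ : unitInterval → V → Fin (n + 1) → ℝ,
    Continuous γ ∧ γ 0 = P₀ ∧ (∀ t, γ t ∈ Conf K P₀) ∧
    ¬ ∃ A : unitInterval → Matrix (Fin (n + 1)) (Fin (n + 1)) ℝ,
      Continuous A ∧ (∀ t, A t ∈ Matrix.orthogonalGroup (Fin (n + 1)) ℝ) ∧
        ∀ t v, γ t v = (A t).mulVec (P₀ v)

/-- The open great circle arc from `y` to `x`, which is the radial projection to `S^n` of the
open segment from `y` to `x`, meets the relative interior of the simplex `P(F)`. -/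
def Crosses {V : Type} {n : ℕ} (P : V → Fin (n + 1) → ℝ) (y x : Fin (n + 1) → ℝ)
    (F : Fin n → V) : Prop :=
  ∃ t ∈ Set.Ioo (0 : ℝ) 1, ∃ c : Fin n → ℝ, (∀ i, 0 < c i) ∧
    (1 - t) • y + t • x = ∑ i, c i • P (F i)

open Classical in
/-- The contribution of the facet `F` to the algebraic intersection number with `P(K)` of the great
circle arc from `y` to `x`: if the open arc meets the relative interior of the simplex `P(F)`, it is
the orientation sign of `F` times the sign of `det (P F_0, …, P F_{n-1}, x)`, which tells on which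
side of the hyperplane of the simplex the end point `x` lies; otherwise it is zero. -/
noncomputable def crossing {V : Type} {n : ℕ} (K : OrientedPseudomanifold V n)
    (P : V → Fin (n + 1) → ℝ) (y x : Fin (n + 1) → ℝ) (F : Fin n → V) : ℤ :=
  if Crosses P y x F
  then K.or F * (SignType.sign (Matrix.det (Matrix.of (Fin.snoc (fun k => P (F k)) x :
    Fin (n + 1) → Fin (n + 1) → ℝ))) : ℤ)
  else 0

/-- `ind_y(x)`: the algebraic intersection number with `P(K)` of the great circle arc from `y` to
`x`, which is a generic path for almost every `x`. -/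
noncomputable def ind {V : Type} {n : ℕ} (K : OrientedPseudomanifold V n)
    (P : V → Fin (n + 1) → ℝ) (y x : Fin (n + 1) → ℝ) : ℤ :=
  ∑ F ∈ K.facets, crossing K P y x F

/-- The standard surface measure of the unit sphere of the Euclidean space `ℝ^d`, as a measure
on `ℝ^d`. -/
noncomputable def surf (d : ℕ) : Measure (Fin d → ℝ) :=
  Measure.map (fun x => x.1.ofLp) (volume : Measure (EuclideanSpace ℝ (Fin d))).toSphere

/-- `V_y(P) = ∫_{S^n} ind_y(x) dx`. -/
noncomputable def volFrom {V : Type} {n : ℕ} (K : OrientedPseudomanifold V n)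
    (P : V → Fin (n + 1) → ℝ) (y : Fin (n + 1) → ℝ) : ℝ :=
  ∫ x, (ind K P y x : ℝ) ∂(surf (n + 1))

/-- `vol(S^n)`. -/
noncomputable def sphereVol (n : ℕ) : ℝ := (surf (n + 1)).real Set.univ

/-- The real number `v` represents the oriented volume `V(P) ∈ ℝ / vol(S^n) ℤ`: there are points
`y ∈ S^n` outside `P(K)`, and `V_y(P) ≡ v` modulo `vol(S^n)` for all of them. -/
def IsOrientedVolume {V : Type} {n : ℕ} (K : OrientedPseudomanifold V n)
    (P : V → Fin (n + 1) → ℝ) (v : ℝ) : Prop :=
  (∃ y, OnSphere y ∧ y ∉ image K P) ∧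
    ∀ y, OnSphere y → y ∉ image K P → ∃ k : ℤ, volFrom K P y = v + k * sphereVol n

/-- There is a closed curve `γ` in the configuration space of `P₀` along which the increment of the
oriented volume (computed with a continuous lift `W` of `V ∘ γ` to `ℝ`) is a non-zero multiple of
`vol(S^n)`. -/
def HasNonzeroIncrement {V : Type} {n : ℕ} (K : OrientedPseudomanifold V n)
    (P₀ : V → Fin (n + 1) → ℝ) : Prop :=
  ∃ γ : unitInterval → V → Fin (n + 1) → ℝ,
    Continuous γ ∧ γ 0 = γ 1 ∧ (∀ t, γ t ∈ Conf K P₀) ∧
    ∃ W : unitInterval → ℝ, Continuous W ∧ (∀ t, IsOrientedVolume K (γ t) (W t)) ∧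
      ∃ k : ℤ, k ≠ 0 ∧ W 1 - W 0 = k * sphereVol n

/-- The oriented volume has a single-valued real-valued branch on the configuration space. -/
def HasRealBranch {V : Type} {n : ℕ} (K : OrientedPseudomanifold V n)
    (P₀ : V → Fin (n + 1) → ℝ) : Prop :=
  ∃ f : (V → Fin (n + 1) → ℝ) → ℝ,
    ContinuousOn f (Conf K P₀) ∧ ∀ P ∈ Conf K P₀, IsOrientedVolume K P (f P)

/-! ### The cross-polytope -/

/-- The facet of the cross-polytope with signs `s`. -/
def facet {n : ℕ} (s : Fin n → Bool) : Fin n → Fin n × Bool := fun i => (i, s i)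

/-- the sign of a Boolean. -/
def sg (b : Bool) : ℤ := if b then -1 else 1

lemma facet_injective {n : ℕ} : Function.Injective (facet (n := n)) := by
  intro s s' h
  funext i
  have := congrFun h i
  simpa [facet] using this

lemma mem_range_facet {n : ℕ} (s : Fin n → Bool) (k : Fin n) (b : Bool) :
    (k, b) ∈ Set.range (facet s) ↔ s k = b := by
  constructor
  · rintro ⟨i, hi⟩
    simp only [facet, Prod.mk.injEq] at hi
    obtain ⟨rfl, rfl⟩ := hi
    rfl
  · intro h; exact ⟨k, by simp [facet, h]⟩

lemma prod_sg_update {n : ℕ} (s s' : Fin n → Bool) (i : Fin n) (h : ∀ k, k ≠ i → s' k = s k)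
    (hi : s' i ≠ s i) : ∏ k, sg (s' k) = - ∏ k, sg (s k) := by
  rw [← Finset.mul_prod_erase _ _ (Finset.mem_univ i), ← Finset.mul_prod_erase _ _ (Finset.mem_univ i)]
  have h1 : ∏ k ∈ Finset.univ.erase i, sg (s' k) = ∏ k ∈ Finset.univ.erase i, sg (s k) :=
    Finset.prod_congr rfl fun k hk => by rw [h k (Finset.ne_of_mem_erase hk)]
  rw [h1]
  have h2 : sg (s' i) = - sg (s i) := by
    revert hi; generalize s' i = a; generalize s i = b
    revert a b; decide
  rw [h2]; ring

/-- The boundary complex of the `n`-dimensional cross-polytope, as an oriented pseudomanifold. -/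
def crossPolytope (n : ℕ) : OrientedPseudomanifold (Fin n × Bool) n where
  facets := Finset.univ.map ⟨facet, facet_injective⟩
  or := fun F => ∏ i, sg (F i).2
  or_eq := by
    intro F _
    have h : ∀ (S : Finset (Fin n)), (∏ i ∈ S, sg (F i).2 = 1) ∨ (∏ i ∈ S, sg (F i).2 = -1) := by
      intro S
      induction S using Finset.induction_on with
      | empty => left; simp
      | insert a S ha ih =>
          rw [Finset.prod_insert ha]
          rcases ih with h | h <;> rw [h] <;> generalize (F a).2 = b <;> revert b <;> decide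
    exact h Finset.univ
  nonempty := by
    rw [Finset.map_nonempty]; exact Finset.univ_nonempty
  inj := by
    intro F hF
    simp only [Finset.mem_map, Finset.mem_univ, true_and, Function.Embedding.coeFn_mk] at hF
    obtain ⟨s, rfl⟩ := hF
    intro i j h
    simp only [facet, Prod.mk.injEq] at h
    exact h.1
  cover := by
    intro v
    refine ⟨facet (fun _ => v.2), by simp, v.1, rfl⟩
  distinct := by
    intro F hF G hG h
    simp only [Finset.mem_map, Finset.mem_univ, true_and, Function.Embedding.coeFn_mk] at hF hG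
    obtain ⟨s, rfl⟩ := hF
    obtain ⟨s', rfl⟩ := hG
    congr 1
    funext k
    have : (k, s k) ∈ Set.range (facet s') := by rw [← h]; exact ⟨k, rfl⟩
    rw [mem_range_facet] at this
    exact this.symm
  two := by
    intro F hF i
    simp only [Finset.mem_map, Finset.mem_univ, true_and, Function.Embedding.coeFn_mk] at hF
    obtain ⟨s, rfl⟩ := hF
    refine ⟨facet (Function.update s i (!s i)), ⟨by simp, ?_, ?_⟩, ?_⟩
    · intro h
      have := congrFun (facet_injective h) i
      simp at this
    · intro k hk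
      change (k, s k) ∈ _
      rw [mem_range_facet, Function.update_of_ne hk]
    · rintro G ⟨hG, hne, hk⟩
      simp only [Finset.mem_map, Finset.mem_univ, true_and, Function.Embedding.coeFn_mk] at hG
      obtain ⟨s', rfl⟩ := hG
      congr 1
      have h1 : ∀ k, k ≠ i → s' k = s k := fun k hki => by
        have := hk k hki
        change (k, s k) ∈ _ at this
        rwa [mem_range_facet] at this
      funext k
      by_cases hki : k = i
      · subst hki
        rw [Function.update_self]
        have : s' k ≠ s k := by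
          intro h
          apply hne
          congr 1
          funext l
          by_cases hl : l = k
          · rw [hl, h]
          · exact h1 l hl
        revert this; generalize s' k = a; generalize s k = b
        revert a b; decide
      · rw [Function.update_of_ne hki, h1 k hki]
  oriented := by
    intro F hF G hG hne i τ hτ
    simp only [Finset.mem_map, Finset.mem_univ, true_and, Function.Embedding.coeFn_mk] at hF hG
    obtain ⟨s, rfl⟩ := hF
    obtain ⟨s', rfl⟩ := hG
    have h1 : ∀ k, k ≠ i → τ k = k ∧ s' k = s k := by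
      intro k hk
      have := hτ k hk
      simp only [facet, Prod.mk.injEq] at this
      refine ⟨this.1, ?_⟩
      rw [← this.2, this.1]
    have hτ1 : τ = 1 := by
      ext k
      by_cases hk : k = i
      · subst hk
        have : τ k = k := by
          by_contra hne'
          have h2 := (h1 (τ k) hne').1
          exact hne' (τ.injective h2)
        rw [this]; rfl
      · rw [(h1 k hk).1]; rfl
    rw [hτ1, Equiv.Perm.sign_one, Units.val_one, mul_one]
    apply prod_sg_update s s' i (fun k hk => (h1 k hk).2)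
    intro h
    apply hne
    congr 1
    funext k
    by_cases hk : k = i
    · rw [hk, h]
    · exact ((h1 k hk).2).symm
  connected := by
    intro F hF G hG
    simp only [Finset.mem_map, Finset.mem_univ, true_and, Function.Embedding.coeFn_mk] at hF hG
    obtain ⟨s, rfl⟩ := hF
    obtain ⟨s', rfl⟩ := hG
    -- change the coordinates one at a time
    have key : ∀ S : Finset (Fin n), Relation.ReflTransGen
        (fun A B => B ∈ Finset.univ.map ⟨facet, facet_injective⟩ ∧
          ∃ i, ∀ k, k ≠ i → A k ∈ Set.range B)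
        (facet s) (facet (fun k => if k ∈ S then s' k else s k)) := by
      intro S
      induction S using Finset.induction_on with
      | empty => simp only [Finset.notMem_empty, if_false]; exact Relation.ReflTransGen.refl
      | insert a S ha ih =>
          refine ih.tail ⟨by simp, a, ?_⟩
          intro k hk
          change (k, (if k ∈ S then s' k else s k)) ∈ _
          rw [mem_range_facet]
          have : (k ∈ insert a S) ↔ k ∈ S := by simp [hk]
          simp only [this]
    have := key Finset.univ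
    simpa using this


/-! ### The rotating lune -/

section lune

variable {m : ℕ}

/-- the last but one coordinate -/
abbrev ia (m : ℕ) : Fin (m + 2) := (Fin.last m).castSucc
/-- the last coordinate -/
abbrev ib (m : ℕ) : Fin (m + 2) := Fin.last (m + 1)

lemma ia_ne_ib : ia m ≠ ib m := by simp [ia, ib, Fin.ext_iff]

/-- the point at angle `φ` in the plane of the last two coordinates. -/
noncomputable def wv (m : ℕ) (φ : ℝ) : Fin (m + 1 + 1) → ℝ :=
  fun j => if j = ia m then Real.cos φ else if j = ib m then Real.sin φ else 0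

/-- sign of a Boolean as a real number -/
def rs (b : Bool) : ℝ := if b then -1 else 1

/-- angle of a Boolean -/
def ang (δ : ℝ) (b : Bool) : ℝ := if b then δ else 0

/-- the vertices of the rotating polyhedron -/
noncomputable def lune (m : ℕ) (δ : ℝ) (v : Fin (m + 1) × Bool) : Fin (m + 1 + 1) → ℝ :=
  if v.1 = Fin.last m then wv m (ang δ v.2)
  else fun j => if j = v.1.castSucc then rs v.2 else 0

lemma lune_last (δ : ℝ) (b : Bool) : lune m δ (Fin.last m, b) = wv m (ang δ b) := by simp [lune]

lemma lune_castSucc_apply (δ : ℝ) (i : Fin m) (b : Bool) (j : Fin (m + 1 + 1)) :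
    lune m δ (i.castSucc, b) j = if j = i.castSucc.castSucc then rs b else 0 := by
  have h : i.castSucc ≠ Fin.last m := (Fin.castSucc_lt_last i).ne
  simp only [lune, if_neg h]

lemma rs_sq (b : Bool) : rs b * rs b = 1 := by cases b <;> simp [rs]

lemma cast_ne_ia (i : Fin m) : i.castSucc.castSucc ≠ ia m := by
  simp only [ia, ne_eq, Fin.ext_iff, Fin.val_castSucc, Fin.val_last]; omega

lemma cast_ne_ib (i : Fin m) : i.castSucc.castSucc ≠ ib m := by
  simp only [ib, ne_eq, Fin.ext_iff, Fin.val_castSucc, Fin.val_last]; omega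

lemma dot_wv (φ ψ : ℝ) : wv m φ ⬝ᵥ wv m ψ = Real.cos (φ - ψ) := by
  simp only [dotProduct, wv]
  rw [Finset.sum_eq_add (ia m) (ib m) ia_ne_ib]
  · simp only [if_true, if_neg ia_ne_ib.symm]
    rw [Real.cos_sub]
  · intro c _ hc
    simp [hc.1, hc.2]
  · simp
  · simp

lemma dot_facet (δ : ℝ) (s : Fin (m + 1) → Bool) (i j : Fin (m + 1)) :
    lune m δ (facet s i) ⬝ᵥ lune m δ (facet s j) = if i = j then (1 : ℝ) else 0 := by
  simp only [facet]
  refine Fin.lastCases ?_ (fun i => ?_) i
  · refine Fin.lastCases ?_ (fun j => ?_) j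
    · rw [lune_last, if_pos rfl, dot_wv]
      simp
    · have h : Fin.last m ≠ j.castSucc := (Fin.castSucc_lt_last j).ne'
      rw [lune_last, if_neg h]
      simp only [dotProduct, lune_castSucc_apply, wv]
      apply Finset.sum_eq_zero
      intro k _
      by_cases h1 : k = j.castSucc.castSucc
      · rw [h1]; simp [cast_ne_ia, cast_ne_ib]
      · simp [h1]
  · refine Fin.lastCases ?_ (fun j => ?_) j
    · have h : i.castSucc ≠ Fin.last m := (Fin.castSucc_lt_last i).ne
      rw [lune_last, if_neg h]
      simp only [dotProduct, lune_castSucc_apply, wv]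
      apply Finset.sum_eq_zero
      intro k _
      by_cases h1 : k = i.castSucc.castSucc
      · rw [h1]; simp [cast_ne_ia, cast_ne_ib]
      · simp [h1]
    · simp only [dotProduct, lune_castSucc_apply]
      by_cases hij : i = j
      · subst hij
        rw [if_pos rfl, Finset.sum_eq_single i.castSucc.castSucc]
        · simp [rs_sq]
        · intro k _ hk; simp [hk]
        · simp
      · have h : i.castSucc ≠ j.castSucc := fun h => hij (Fin.castSucc_injective _ h)
        rw [if_neg h]
        apply Finset.sum_eq_zero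
        intro k _
        by_cases h1 : k = i.castSucc.castSucc
        · have h2 : k ≠ j.castSucc.castSucc := by
            rw [h1]; intro h3; exact h (Fin.castSucc_injective _ h3)
          simp [h2]
        · simp [h1]

lemma onSphere_lune (δ : ℝ) (v : Fin (m + 1) × Bool) : OnSphere (lune m δ v) := by
  have := dot_facet (m := m) δ (fun _ => v.2) v.1 v.1
  simp only [facet, if_true, dotProduct] at this
  unfold OnSphere
  rw [← this]
  exact Finset.sum_congr rfl fun k _ => sq _

lemma mem_facets {n : ℕ} {F : Fin n → Fin n × Bool} (h : F ∈ (crossPolytope n).facets) :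
    ∃ s, F = facet s := by
  simp only [crossPolytope, Finset.mem_map, Finset.mem_univ, true_and,
    Function.Embedding.coeFn_mk] at h
  obtain ⟨s, rfl⟩ := h
  exact ⟨s, rfl⟩

lemma lune_isPolyhedron (δ : ℝ) : IsPolyhedron (crossPolytope (m + 1)) (lune m δ) := by
  refine ⟨onSphere_lune δ, ?_⟩
  intro F hF
  obtain ⟨s, rfl⟩ := mem_facets hF
  rw [Fintype.linearIndependent_iff]
  intro g hg i
  have h := congrArg (fun v => v ⬝ᵥ lune m δ (facet s i)) hg
  simp only [zero_dotProduct, sum_dotProduct, smul_dotProduct, smul_eq_mul, dot_facet] at h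
  simpa using h

lemma lune_mem_Conf (δ δ' : ℝ) : lune m δ ∈ Conf (crossPolytope (m + 1)) (lune m δ') := by
  refine ⟨lune_isPolyhedron δ, ?_⟩
  intro F hF i j
  obtain ⟨s, rfl⟩ := mem_facets hF
  rw [dot_facet, dot_facet]

lemma continuous_lune : Continuous (fun δ => lune m δ) := by
  rw [continuous_pi_iff]
  intro v
  rw [continuous_pi_iff]
  intro j
  by_cases h : v.1 = Fin.last m
  · simp only [lune, if_pos h, wv]
    have ha : Continuous (fun δ => ang δ v.2) := by
      unfold ang
      split_ifs <;> fun_prop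
    split_ifs
    · exact Real.continuous_cos.comp ha
    · exact Real.continuous_sin.comp ha
    · exact continuous_const
  · simp only [lune, if_neg h]
    exact continuous_const

lemma lune_flexible : Flexible (crossPolytope (m + 1)) (lune m (Real.pi / 2)) := by
  refine ⟨fun t => lune m (Real.pi / 2 + t), ?_, ?_, ?_, ?_⟩
  · exact continuous_lune.comp (by fun_prop)
  · simp
  · intro t; exact lune_mem_Conf _ _
  · rintro ⟨A, _, hA0, hA⟩
    simp only at hA
    have h1 := hA 1 (Fin.last m, false)
    have h2 := hA 1 (Fin.last m, true)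
    have hort : (A 1).transpose * A 1 = 1 := by
      have := (Matrix.mem_orthogonalGroup_iff' (Fin (m + 1 + 1)) ℝ).1 (hA0 1)
      simpa using this
    have h3 : lune m (Real.pi / 2 + ((1 : unitInterval) : ℝ)) (Fin.last m, false) ⬝ᵥ
        lune m (Real.pi / 2 + ((1 : unitInterval) : ℝ)) (Fin.last m, true) =
        lune m (Real.pi / 2) (Fin.last m, false) ⬝ᵥ lune m (Real.pi / 2) (Fin.last m, true) := by
      rw [h1, h2, Matrix.dotProduct_mulVec, Matrix.vecMul_mulVec, hort]
      simp
    simp only [lune_last, dot_wv, ang, Set.Icc.coe_one, Bool.false_eq_true, if_false, if_true,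
      zero_sub, Real.cos_neg, Real.cos_pi_div_two] at h3
    rw [Real.cos_eq_zero_iff] at h3
    obtain ⟨k, hk⟩ := h3
    have hpi := Real.pi_pos
    have h5 : (k : ℝ) * Real.pi = 1 := by linarith
    have h6 : (0 : ℝ) < k := by
      by_contra h
      push Not at h
      nlinarith
    have h7 : (1 : ℝ) ≤ k := by
      have : (0 : ℤ) < k := by exact_mod_cast h6
      exact_mod_cast this
    have h8 := Real.pi_gt_three
    nlinarith

/-! ### The determinant -/

/-- auxiliary matrix -/
noncomputable def Rm (m : ℕ) (ε : Fin m → ℝ) (w x : Fin (m + 2) → ℝ) :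
    Matrix (Fin (m + 2)) (Fin (m + 2)) ℝ :=
  Matrix.of (fun i j => if h : i.val < m then (if j.val = i.val then ε ⟨i, h⟩ else 0)
    else if i.val = m then w j else x j)

lemma det_Rm (m : ℕ) (ε : Fin m → ℝ) (w x : Fin (m + 2) → ℝ) :
    (Rm m ε w x).det = (∏ i, ε i) * (w (ia m) * x (ib m) - w (ib m) * x (ia m)) := by
  induction m with
  | zero =>
      rw [Matrix.det_fin_two]
      simp [Rm, ia, ib]
  | succ m ih =>
      rw [Matrix.det_succ_row_zero, Finset.sum_eq_single 0]
      · have h1 : (Rm (m + 1) ε w x).submatrix Fin.succ (Fin.succAbove 0) =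
            Rm m (fun i => ε i.succ) (fun j => w j.succ) (fun j => x j.succ) := by
          ext i j
          simp only [Rm, Matrix.submatrix_apply, Matrix.of_apply, Fin.succAbove_zero, Fin.val_succ,
            Nat.add_lt_add_iff_right, Nat.add_right_cancel_iff]
          rfl
        rw [h1, ih, Fin.prod_univ_succ]
        have h2 : (ia m).succ = ia (m + 1) := by ext; simp [ia]
        have h3 : (ib m).succ = ib (m + 1) := by ext; simp [ib]
        simp only [h2, h3]
        have h4 : Rm (m + 1) ε w x 0 0 = ε 0 := by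
          simp [Rm]
        rw [h4]
        simp
        ring
      · intro j _ hj
        have : Rm (m + 1) ε w x 0 j = 0 := by
          simp only [Rm, Matrix.of_apply]
          rw [dif_pos (by simp), if_neg]
          intro h
          exact hj (Fin.ext h)
        rw [this]; simp
      · simp

lemma det_facet (δ : ℝ) (s : Fin (m + 1) → Bool) (x : Fin (m + 1 + 1) → ℝ) :
    Matrix.det (Matrix.of (Fin.snoc (fun k => lune m δ (facet s k)) x :
      Fin (m + 1 + 1) → Fin (m + 1 + 1) → ℝ)) =
      (∏ i : Fin m, rs (s i.castSucc)) *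
        (Real.cos (ang δ (s (Fin.last m))) * x (ib m) -
          Real.sin (ang δ (s (Fin.last m))) * x (ia m)) := by
  have h : (Matrix.of (Fin.snoc (fun k => lune m δ (facet s k)) x :
      Fin (m + 1 + 1) → Fin (m + 1 + 1) → ℝ)) =
      Rm m (fun i => rs (s i.castSucc)) (fun j => wv m (ang δ (s (Fin.last m))) j) (fun j => x j) := by
    ext i j
    simp only [Rm, Matrix.of_apply]
    refine Fin.lastCases ?_ (fun i => ?_) i
    · rw [Fin.snoc_last, dif_neg (by simp), if_neg (by simp)]
    · rw [Fin.snoc_castSucc]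
      refine Fin.lastCases ?_ (fun i => ?_) i
      · rw [dif_neg (by simp), if_pos (by simp)]
        simp only [facet, lune_last]
      · rw [dif_pos (by simp)]
        simp only [facet, lune_castSucc_apply, Fin.ext_iff, Fin.val_castSucc]
  rw [h, det_Rm]
  simp only [wv, if_true, if_neg ia_ne_ib.symm]

/-! ### Plane trigonometry -/

lemma sin_pos_cases {d : ℝ} (_h1 : -(2 * Real.pi) < d) (h2 : d < 2 * Real.pi) (h : 0 < Real.sin d) :
    (0 < d ∧ d < Real.pi) ∨ d < -Real.pi := by
  by_contra hcon
  push Not at hcon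
  obtain ⟨h3, h4⟩ := hcon
  rcases le_or_gt d 0 with h5 | h5
  · have := Real.sin_nonpos_of_nonpos_of_neg_pi_le h5 h4
    linarith
  · have h6 := h3 h5
    have : Real.sin (d - 2 * Real.pi) ≤ 0 :=
      Real.sin_nonpos_of_nonpos_of_neg_pi_le (by linarith) (by linarith)
    rw [Real.sin_sub_two_pi] at this
    linarith

lemma sin_neg_cases {d : ℝ} (h1 : -(2 * Real.pi) < d) (h2 : d < 2 * Real.pi) (h : Real.sin d < 0) :
    (-Real.pi < d ∧ d < 0) ∨ Real.pi < d := by
  have h' : 0 < Real.sin (-d) := by rw [Real.sin_neg]; linarith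
  rcases sin_pos_cases (d := -d) (by linarith) (by linarith) h' with h3 | h3
  · left; constructor <;> linarith [h3.1, h3.2]
  · right; linarith

lemma sin_pos_of {d : ℝ} (h2 : -(2 * Real.pi) < d) (h : (0 < d ∧ d < Real.pi) ∨ d < -Real.pi) :
    0 < Real.sin d := by
  rcases h with ⟨h3, h4⟩ | h3
  · exact Real.sin_pos_of_pos_of_lt_pi h3 h4
  · rw [← Real.sin_add_two_pi]
    exact Real.sin_pos_of_pos_of_lt_pi (by linarith) (by linarith)

lemma sin_neg_of {d : ℝ} (h2 : d < 2 * Real.pi) (h : (-Real.pi < d ∧ d < 0) ∨ Real.pi < d) :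
    Real.sin d < 0 := by
  have := sin_pos_of (d := -d) (by linarith) (by
    rcases h with ⟨h3, h4⟩ | h3
    · left; constructor <;> linarith
    · right; linarith)
  rw [Real.sin_neg] at this
  linarith

open Classical in
/-- signed crossing of the ray at angle `φ` by a segment from angle `β` to angle `α`. -/
noncomputable def cr (φ β α : ℝ) : ℤ :=
  if 0 < Real.sin (α - φ) ∧ 0 < Real.sin (φ - β) ∧ 0 < Real.sin (α - β) then 1
  else if Real.sin (α - φ) < 0 ∧ Real.sin (φ - β) < 0 ∧ Real.sin (α - β) < 0 then -1 else 0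

open Classical in
lemma cr_sub {α β δ : ℝ} (hα0 : 0 < α) (hα : α < 2 * Real.pi) (hβ0 : 0 < β)
    (hβ : β < 2 * Real.pi) (hδ0 : 0 ≤ δ) (hδ : δ ≤ 2 * Real.pi) (hβδ : β ≠ δ)
    (h1 : Real.sin α ≠ 0) (h2 : Real.sin (α - δ) ≠ 0) (h3 : Real.sin (α - β) ≠ 0) :
    cr 0 β α - cr δ β α = (if α < δ then 1 else 0) - (if β < δ then 1 else 0) := by
  have hpi := Real.pi_pos
  have hαδ : α ≠ δ := by rintro rfl; simp at h2
  -- positivity characterisations
  have P0 : (0 < Real.sin (α - 0) ∧ 0 < Real.sin (0 - β) ∧ 0 < Real.sin (α - β)) ↔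
      Real.pi < β - α := by
    constructor
    · rintro ⟨a1, a2, a3⟩
      rcases sin_pos_cases (by linarith) (by linarith) a1 with b1 | b1 <;>
      rcases sin_pos_cases (by linarith) (by linarith) a2 with b2 | b2 <;>
      rcases sin_pos_cases (by linarith) (by linarith) a3 with b3 | b3 <;> linarith [b1, b2, b3]
    · intro h
      refine ⟨sin_pos_of (by linarith) ?_, sin_pos_of (by linarith) ?_,
        sin_pos_of (by linarith) ?_⟩
      · left; constructor <;> linarith
      · right; linarith
      · right; linarith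
  have N0 : (Real.sin (α - 0) < 0 ∧ Real.sin (0 - β) < 0 ∧ Real.sin (α - β) < 0) ↔
      Real.pi < α - β := by
    constructor
    · rintro ⟨a1, a2, a3⟩
      rcases sin_neg_cases (by linarith) (by linarith) a1 with b1 | b1 <;>
      rcases sin_neg_cases (by linarith) (by linarith) a2 with b2 | b2 <;>
      rcases sin_neg_cases (by linarith) (by linarith) a3 with b3 | b3 <;> linarith [b1, b2, b3]
    · intro h
      refine ⟨sin_neg_of (by linarith) ?_, sin_neg_of (by linarith) ?_,
        sin_neg_of (by linarith) ?_⟩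
      · right; linarith
      · left; constructor <;> linarith
      · right; linarith
  have Pδ : (0 < Real.sin (α - δ) ∧ 0 < Real.sin (δ - β) ∧ 0 < Real.sin (α - β)) ↔
      (β < δ ∧ δ < α ∧ α - β < Real.pi) ∨ (Real.pi < β - α ∧ (β < δ ∨ δ < α)) := by
    constructor
    · rintro ⟨a1, a2, a3⟩
      rcases sin_pos_cases (by linarith) (by linarith) a1 with b1 | b1 <;>
      rcases sin_pos_cases (by linarith) (by linarith) a2 with b2 | b2 <;>
      rcases sin_pos_cases (by linarith) (by linarith) a3 with b3 | b3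
      · left; refine ⟨by linarith, by linarith, by linarith⟩
      · exfalso; linarith
      · exfalso; linarith
      · right; exact ⟨by linarith, Or.inr (by linarith)⟩
      · exfalso; linarith
      · right; exact ⟨by linarith, Or.inl (by linarith)⟩
      · exfalso; linarith
      · exfalso; linarith
    · rintro (⟨a1, a2, a3⟩ | ⟨a1, a2 | a2⟩)
      · refine ⟨sin_pos_of (by linarith) ?_, sin_pos_of (by linarith) ?_,
          sin_pos_of (by linarith) ?_⟩
        · left; constructor <;> linarith
        · left; constructor <;> linarith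
        · left; constructor <;> linarith
      · refine ⟨sin_pos_of (by linarith) ?_, sin_pos_of (by linarith) ?_,
          sin_pos_of (by linarith) ?_⟩
        · right; linarith
        · left; constructor <;> linarith
        · right; linarith
      · refine ⟨sin_pos_of (by linarith) ?_, sin_pos_of (by linarith) ?_,
          sin_pos_of (by linarith) ?_⟩
        · left; constructor <;> linarith
        · right; linarith
        · right; linarith
  have Nδ : (Real.sin (α - δ) < 0 ∧ Real.sin (δ - β) < 0 ∧ Real.sin (α - β) < 0) ↔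
      (α < δ ∧ δ < β ∧ β - α < Real.pi) ∨ (Real.pi < α - β ∧ (α < δ ∨ δ < β)) := by
    constructor
    · rintro ⟨a1, a2, a3⟩
      rcases sin_neg_cases (by linarith) (by linarith) a1 with b1 | b1 <;>
      rcases sin_neg_cases (by linarith) (by linarith) a2 with b2 | b2 <;>
      rcases sin_neg_cases (by linarith) (by linarith) a3 with b3 | b3
      · left; refine ⟨by linarith, by linarith, by linarith⟩
      · exfalso; linarith
      · exfalso; linarith
      · right; exact ⟨by linarith, Or.inl (by linarith)⟩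
      · exfalso; linarith
      · right; exact ⟨by linarith, Or.inr (by linarith)⟩
      · exfalso; linarith
      · exfalso; linarith
    · rintro (⟨a1, a2, a3⟩ | ⟨a1, a2 | a2⟩)
      · refine ⟨sin_neg_of (by linarith) ?_, sin_neg_of (by linarith) ?_,
          sin_neg_of (by linarith) ?_⟩
        · left; constructor <;> linarith
        · left; constructor <;> linarith
        · left; constructor <;> linarith
      · refine ⟨sin_neg_of (by linarith) ?_, sin_neg_of (by linarith) ?_,
          sin_neg_of (by linarith) ?_⟩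
        · left; constructor <;> linarith
        · right; linarith
        · right; linarith
      · refine ⟨sin_neg_of (by linarith) ?_, sin_neg_of (by linarith) ?_,
          sin_neg_of (by linarith) ?_⟩
        · right; linarith
        · left; constructor <;> linarith
        · right; linarith
  unfold cr
  simp only [P0, N0, Pδ, Nδ]
  -- `|α - β| ≠ π`
  have h4 : α - β ≠ Real.pi := by intro h; rw [h] at h3; simp at h3
  have h5 : β - α ≠ Real.pi := by
    intro h; apply h3; rw [show α - β = -(β - α) by ring, h]; simp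
  rcases lt_or_gt_of_ne hαδ with g1 | g1 <;> rcases lt_or_gt_of_ne hβδ with g2 | g2 <;>
  rcases lt_or_gt_of_ne h4 with g3 | g3 <;> rcases lt_or_gt_of_ne h5 with g4 | g4 <;>
  simp only [g1, g2, g3, g4, if_true, not_lt.2 g1.le, not_lt.2 g2.le, not_lt.2 g3.le,
    not_lt.2 g4.le, if_false, and_false, false_and, or_false, false_or, and_true, true_and,
    or_true, true_or] <;> first | (exfalso; linarith) | norm_num

/-! ### The index -/

/-- `cos φ x_b - sin φ x_a` -/
noncomputable def om (m : ℕ) (φ : ℝ) (x : Fin (m + 1 + 1) → ℝ) : ℝ :=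
  Real.cos φ * x (ib m) - Real.sin φ * x (ia m)

/-- the vector lies on the ray (times the other coordinates) at angle `φ` -/
def onRay (m : ℕ) (φ : ℝ) (z : Fin (m + 1 + 1) → ℝ) : Prop :=
  ∃ l : ℝ, 0 < l ∧ z (ia m) = l * Real.cos φ ∧ z (ib m) = l * Real.sin φ

lemma sum_facet_apply (δ : ℝ) (s : Fin (m + 1) → Bool) (c : Fin (m + 1) → ℝ)
    (j : Fin (m + 1 + 1)) :
    (∑ i, c i • lune m δ (facet s i) : Fin (m + 1 + 1) → ℝ) j =
      (∑ i : Fin m, if j = i.castSucc.castSucc then c i.castSucc * rs (s i.castSucc) else 0) +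
        c (Fin.last m) * wv m (ang δ (s (Fin.last m))) j := by
  rw [Fin.sum_univ_castSucc]
  simp only [Pi.add_apply, Pi.smul_apply, Finset.sum_apply, smul_eq_mul]
  congr 1
  · apply Finset.sum_congr rfl
    intro i _
    simp only [facet, lune_castSucc_apply]
    split_ifs <;> simp
  · simp only [facet, lune_last]

lemma sum_facet_apply_cast (δ : ℝ) (s : Fin (m + 1) → Bool) (c : Fin (m + 1) → ℝ) (k : Fin m) :
    (∑ i, c i • lune m δ (facet s i) : Fin (m + 1 + 1) → ℝ)
      k.castSucc.castSucc = c k.castSucc * rs (s k.castSucc) := by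
  rw [sum_facet_apply, Finset.sum_eq_single k]
  · have h2 : k.castSucc.castSucc ≠ ia m := by
      simp only [ia, ne_eq, Fin.ext_iff, Fin.val_castSucc, Fin.val_last]; omega
    have h3 : k.castSucc.castSucc ≠ ib m := by
      simp only [ib, ne_eq, Fin.ext_iff, Fin.val_castSucc, Fin.val_last]; omega
    simp [wv, h2, h3]
  · intro i _ hi
    rw [if_neg]
    intro h
    exact hi (Fin.castSucc_injective _ (Fin.castSucc_injective _ h)).symm
  · simp

lemma sum_facet_apply_ia (δ : ℝ) (s : Fin (m + 1) → Bool) (c : Fin (m + 1) → ℝ) :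
    (∑ i, c i • lune m δ (facet s i) : Fin (m + 1 + 1) → ℝ) (ia m) =
      c (Fin.last m) * Real.cos (ang δ (s (Fin.last m))) := by
  rw [sum_facet_apply, Finset.sum_eq_zero]
  · simp [wv]
  · intro i _
    rw [if_neg]
    simp only [ia, Fin.ext_iff, Fin.val_castSucc, Fin.val_last]; omega

lemma sum_facet_apply_ib (δ : ℝ) (s : Fin (m + 1) → Bool) (c : Fin (m + 1) → ℝ) :
    (∑ i, c i • lune m δ (facet s i) : Fin (m + 1 + 1) → ℝ) (ib m) =
      c (Fin.last m) * Real.sin (ang δ (s (Fin.last m))) := by
  rw [sum_facet_apply, Finset.sum_eq_zero]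
  · simp [wv, ia_ne_ib.symm]
  · intro i _
    rw [if_neg]
    simp only [ib, Fin.ext_iff, Fin.val_castSucc, Fin.val_last]; omega

/-- case distinction for the coordinates -/
lemma coord_cases (j : Fin (m + 1 + 1)) :
    (∃ k : Fin m, j = k.castSucc.castSucc) ∨ j = ia m ∨ j = ib m := by
  refine Fin.lastCases (Or.inr (Or.inr rfl)) (fun j => ?_) j
  refine Fin.lastCases (Or.inr (Or.inl rfl)) (fun k => ?_) j
  exact Or.inl ⟨k, rfl⟩

lemma cone_iff (δ : ℝ) (s : Fin (m + 1) → Bool) (z : Fin (m + 1 + 1) → ℝ) :
    (∃ c : Fin (m + 1) → ℝ, (∀ i, 0 < c i) ∧ z = ∑ i, c i • lune m δ (facet s i)) ↔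
      (∀ i : Fin m, 0 < rs (s i.castSucc) * z i.castSucc.castSucc) ∧
        onRay m (ang δ (s (Fin.last m))) z := by
  constructor
  · rintro ⟨c, hc, rfl⟩
    refine ⟨fun i => ?_, c (Fin.last m), hc _, ?_, ?_⟩
    · rw [sum_facet_apply_cast, mul_comm, mul_assoc, rs_sq, mul_one]
      exact hc _
    · rw [sum_facet_apply_ia]
    · rw [sum_facet_apply_ib]
  · rintro ⟨h1, l, hl, ha, hb⟩
    refine ⟨Fin.snoc (α := fun _ => ℝ) (fun i : Fin m => rs (s i.castSucc) *
      z i.castSucc.castSucc) l, ?_, ?_⟩
    · intro i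
      refine Fin.lastCases ?_ (fun i => ?_) i
      · rw [Fin.snoc_last]; exact hl
      · rw [Fin.snoc_castSucc]; exact h1 i
    · ext j
      rcases coord_cases j with ⟨k, rfl⟩ | rfl | rfl
      · rw [sum_facet_apply_cast, Fin.snoc_castSucc, mul_comm, ← mul_assoc, rs_sq, one_mul]
      · rw [sum_facet_apply_ia, Fin.snoc_last, ha]
      · rw [sum_facet_apply_ib, Fin.snoc_last, hb]

lemma sign_rs (b : Bool) : (SignType.sign (rs b) : ℤ) = sg b := by
  cases b <;> simp [rs, sg]

lemma sg_sq (b : Bool) : sg b * sg b = 1 := by cases b <;> simp [sg]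

open Classical in
lemma crossing_eq (δ : ℝ) (y x : (Fin (m + 1 + 1) → ℝ))
    (s : Fin (m + 1) → Bool) :
    crossing (crossPolytope (m + 1)) (lune m δ) y x (facet s) =
      if ∃ t ∈ Set.Ioo (0 : ℝ) 1, (∀ i : Fin m, 0 < rs (s i.castSucc) *
          ((1 - t) * y i.castSucc.castSucc + t * x i.castSucc.castSucc)) ∧
          onRay m (ang δ (s (Fin.last m))) ((1 - t) • y + t • x)
      then sg (s (Fin.last m)) * (SignType.sign (om m (ang δ (s (Fin.last m))) x) : ℤ)
      else 0 := by
  unfold crossing
  have hor : (crossPolytope (m + 1)).or (facet s) = ∏ i, sg (s i) := rfl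
  rw [hor, det_facet, sign_mul]
  have h1 : (SignType.sign (∏ i : Fin m, rs (s i.castSucc)) : ℤ) =
      ∏ i : Fin m, sg (s i.castSucc) := by
    have h2 : ∀ S : Finset (Fin m), (SignType.sign (∏ i ∈ S, rs (s i.castSucc)) : ℤ) =
        ∏ i ∈ S, sg (s i.castSucc) := by
      intro S
      induction S using Finset.induction_on with
      | empty => simp
      | insert a S ha ih =>
          rw [Finset.prod_insert ha, Finset.prod_insert ha, sign_mul, SignType.coe_mul, ih, sign_rs]
    exact h2 Finset.univ
  rw [SignType.coe_mul, h1, Fin.prod_univ_castSucc]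
  have h3 : (∏ i : Fin m, sg (s i.castSucc)) * (∏ i : Fin m, sg (s i.castSucc)) = 1 := by
    rw [← Finset.prod_mul_distrib]
    exact Finset.prod_eq_one fun i _ => sg_sq _
  have h4 : ∀ A B C : ℤ, A * A = 1 → (A * B) * (A * C) = B * C := by
    intro A B C h; linear_combination (B * C) * h
  rw [h4 _ _ _ h3]
  have hiff : Crosses (lune m δ) y x (facet s) ↔
      (∃ t ∈ Set.Ioo (0 : ℝ) 1, (∀ i : Fin m, 0 < rs (s i.castSucc) *
          ((1 - t) * y i.castSucc.castSucc + t * x i.castSucc.castSucc)) ∧
          onRay m (ang δ (s (Fin.last m))) ((1 - t) • y + t • x)) := by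
    refine exists_congr fun t => and_congr_right fun _ => ?_
    rw [cone_iff]
    simp only [Pi.add_apply, Pi.smul_apply, smul_eq_mul]
  by_cases hc : (∃ t ∈ Set.Ioo (0 : ℝ) 1, (∀ i : Fin m, 0 < rs (s i.castSucc) *
          ((1 - t) * y i.castSucc.castSucc + t * x i.castSucc.castSucc)) ∧
          onRay m (ang δ (s (Fin.last m))) ((1 - t) • y + t • x))
  · rw [if_pos hc, if_pos (hiff.2 hc)]
    rfl
  · rw [if_neg hc, if_neg (fun h => hc (hiff.1 h))]

lemma om_onRay {φ : ℝ} {z : Fin (m + 1 + 1) → ℝ} (h : onRay m φ z) :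
    om m φ z = 0 := by
  obtain ⟨l, _, ha, hb⟩ := h
  unfold om
  rw [ha, hb]; ring

lemma om_comb (φ t : ℝ) (y x : Fin (m + 1 + 1) → ℝ) :
    om m φ ((1 - t) • y + t • x) = (1 - t) * om m φ y + t * om m φ x := by
  unfold om
  simp only [Pi.add_apply, Pi.smul_apply, smul_eq_mul]
  ring

/-- the arc from `y` to `x` hits the half plane at angle `φ` -/
def hit (m : ℕ) (φ : ℝ) (y x : Fin (m + 1 + 1) → ℝ) : Prop :=
  ∃ t ∈ Set.Ioo (0 : ℝ) 1, onRay m φ ((1 - t) • y + t • x)

open Classical in
lemma sum_fiber (δ : ℝ) (y x : (Fin (m + 1 + 1) → ℝ))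
    (b : Bool) (h1 : om m (ang δ b) x ≠ 0)
    (h2 : om m (ang δ b) y ≠ 0 → ∀ i : Fin m, om m (ang δ b) y * x i.castSucc.castSucc -
      y i.castSucc.castSucc * om m (ang δ b) x ≠ 0) :
    ∑ s : Fin (m + 1) → Bool with s (Fin.last m) = b,
      crossing (crossPolytope (m + 1)) (lune m δ) y x (facet s) =
      if hit m (ang δ b) y x then sg b * (SignType.sign (om m (ang δ b) x) : ℤ) else 0 := by
  -- the parameter is unique
  have huniq : ∀ t t' : ℝ, onRay m (ang δ b) ((1 - t) • y + t • x) →
      onRay m (ang δ b) ((1 - t') • y + t' • x) → t = t' := by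
    intro t t' h h'
    have e := om_onRay h
    have e' := om_onRay h'
    rw [om_comb] at e e'
    by_contra hne
    have h5 : (t - t') * (om m (ang δ b) x - om m (ang δ b) y) = 0 := by linear_combination e - e'
    rcases mul_eq_zero.1 h5 with h6 | h6
    · exact hne (sub_eq_zero.1 h6)
    · rw [sub_eq_zero] at h6
      rw [← h6] at e
      apply h1
      linarith
  by_cases hh : hit m (ang δ b) y x
  · rw [if_pos hh]
    obtain ⟨t, ht, hray⟩ := hh
    -- the coordinates do not vanish
    have hom := om_onRay hray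
    rw [om_comb] at hom
    have hy : om m (ang δ b) y ≠ 0 := by
      intro h0
      rw [h0, mul_zero, zero_add] at hom
      rcases mul_eq_zero.1 hom with h | h
      · exact ht.1.ne' h
      · exact h1 h
    have hz : ∀ i : Fin m, (1 - t) * y i.castSucc.castSucc + t * x i.castSucc.castSucc ≠ 0 := by
      intro i h0
      apply h2 hy i
      have h7 : t * (om m (ang δ b) y * x i.castSucc.castSucc -
        y i.castSucc.castSucc * om m (ang δ b) x) = 0 := by
        linear_combination (om m (ang δ b) y) * h0 - (y i.castSucc.castSucc) * hom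
      rcases mul_eq_zero.1 h7 with h | h
      · exact absurd h ht.1.ne'
      · exact h
    set s₀ : Fin (m + 1) → Bool := Fin.snoc (α := fun _ => Bool)
      (fun i : Fin m => decide ((1 - t) * y i.castSucc.castSucc +
        t * x i.castSucc.castSucc < 0)) b with hs₀
    have hs₀l : s₀ (Fin.last m) = b := by rw [hs₀, Fin.snoc_last]
    have hs₀c : ∀ i : Fin m, s₀ i.castSucc = decide ((1 - t) * y i.castSucc.castSucc +
        t * x i.castSucc.castSucc < 0) := fun i => by rw [hs₀, Fin.snoc_castSucc]
    rw [Finset.sum_eq_single s₀]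
    · rw [crossing_eq, if_pos, hs₀l]
      refine ⟨t, ht, fun i => ?_, ?_⟩
      · rw [hs₀c]
        rcases lt_or_gt_of_ne (hz i) with h | h
        · simp only [h, decide_true, rs, if_true]; linarith
        · simp only [not_lt.2 h.le, decide_false, rs, Bool.false_eq_true, if_false]; linarith
      · rw [hs₀l]; exact hray
    · intro s hs hne
      rw [Finset.mem_filter] at hs
      rw [crossing_eq, if_neg]
      rintro ⟨t', ht', h5, h6⟩
      rw [hs.2] at h6
      have := huniq _ _ h6 hray
      subst this
      apply hne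
      funext i
      refine Fin.lastCases ?_ (fun i => ?_) i
      · rw [hs.2, hs₀l]
      · rw [hs₀c]
        have h7 := h5 i
        revert h7
        cases s i.castSucc with
        | false =>
            intro h7
            simp only [rs, Bool.false_eq_true, if_false, one_mul] at h7
            simp [not_lt.2 h7.le]
        | true =>
            intro h7
            simp only [rs, if_true] at h7
            have : (1 - t') * y i.castSucc.castSucc + t' * x i.castSucc.castSucc < 0 := by
              linarith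
            simp [this]
    · intro h
      exact (h (by rw [Finset.mem_filter]; exact ⟨Finset.mem_univ _, hs₀l⟩)).elim
  · rw [if_neg hh]
    apply Finset.sum_eq_zero
    intro s hs
    rw [Finset.mem_filter] at hs
    rw [crossing_eq, if_neg]
    rintro ⟨t', ht', _, h6⟩
    rw [hs.2] at h6
    exact hh ⟨t', ht', h6⟩

open Classical in
lemma ind_eq (δ : ℝ) (y x : (Fin (m + 1 + 1) → ℝ))
    (h1 : ∀ b, om m (ang δ b) x ≠ 0)
    (h2 : ∀ b, om m (ang δ b) y ≠ 0 → ∀ i : Fin m,
      om m (ang δ b) y * x i.castSucc.castSucc -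
      y i.castSucc.castSucc * om m (ang δ b) x ≠ 0) :
    ind (crossPolytope (m + 1)) (lune m δ) y x =
      (if hit m 0 y x then (SignType.sign (om m 0 x) : ℤ) else 0) -
      (if hit m δ y x then (SignType.sign (om m δ x) : ℤ) else 0) := by
  unfold ind
  have : ∑ F ∈ (crossPolytope (m + 1)).facets, crossing (crossPolytope (m + 1)) (lune m δ) y x F =
      ∑ s : Fin (m + 1) → Bool, crossing (crossPolytope (m + 1)) (lune m δ) y x (facet s) := by
    simp only [crossPolytope, Finset.sum_map, Function.Embedding.coeFn_mk]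
  rw [this, ← Finset.sum_fiberwise (s := Finset.univ) (g := fun s : Fin (m + 1) → Bool =>
    s (Fin.last m)), Fintype.sum_bool]
  rw [sum_fiber δ y x true (h1 true) (h2 true), sum_fiber δ y x false (h1 false) (h2 false)]
  simp only [ang, if_true, Bool.false_eq_true, if_false, sg]
  split_ifs <;> ring


/-! ### Polar coordinates in the last two variables -/

/-- the angle in `(0, 2π]` of the last two coordinates -/
noncomputable def theta (m : ℕ) (x : Fin (m + 1 + 1) → ℝ) : ℝ :=
  Complex.arg (-(⟨x (ia m), x (ib m)⟩ : ℂ)) + Real.pi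

lemma theta_pos (x : Fin (m + 1 + 1) → ℝ) : 0 < theta m x := by
  have := Complex.neg_pi_lt_arg (-(⟨x (ia m), x (ib m)⟩ : ℂ))
  unfold theta; linarith

lemma theta_le (x : Fin (m + 1 + 1) → ℝ) : theta m x ≤ 2 * Real.pi := by
  have := Complex.arg_le_pi (-(⟨x (ia m), x (ib m)⟩ : ℂ))
  unfold theta; linarith

/-- the radius -/
noncomputable def rad (m : ℕ) (x : Fin (m + 1 + 1) → ℝ) : ℝ :=
  ‖(⟨x (ia m), x (ib m)⟩ : ℂ)‖

lemma rad_nonneg (x : Fin (m + 1 + 1) → ℝ) : 0 ≤ rad m x := norm_nonneg _

lemma ia_eq (x : Fin (m + 1 + 1) → ℝ) :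
    x (ia m) = rad m x * Real.cos (theta m x) := by
  have h := Complex.norm_mul_cos_arg (-(⟨x (ia m), x (ib m)⟩ : ℂ))
  rw [norm_neg] at h
  unfold theta rad
  rw [Real.cos_add_pi, mul_neg, h]
  simp

lemma ib_eq (x : Fin (m + 1 + 1) → ℝ) :
    x (ib m) = rad m x * Real.sin (theta m x) := by
  have h := Complex.norm_mul_sin_arg (-(⟨x (ia m), x (ib m)⟩ : ℂ))
  rw [norm_neg] at h
  unfold theta rad
  rw [Real.sin_add_pi, mul_neg, h]
  simp

lemma om_eq (φ : ℝ) (x : Fin (m + 1 + 1) → ℝ) :
    om m φ x = rad m x * Real.sin (theta m x - φ) := by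
  unfold om
  rw [ib_eq x, ia_eq x, Real.sin_sub]
  ring

lemma hit_iff (φ : ℝ) (y x : Fin (m + 1 + 1) → ℝ) (hx : 0 < rad m x)
    (hy : 0 < rad m y) (hs : Real.sin (theta m x - theta m y) ≠ 0) :
    hit m φ y x ↔
      (0 < Real.sin (theta m x - φ) ∧ 0 < Real.sin (φ - theta m y) ∧
        0 < Real.sin (theta m x - theta m y)) ∨
      (Real.sin (theta m x - φ) < 0 ∧ Real.sin (φ - theta m y) < 0 ∧
        Real.sin (theta m x - theta m y) < 0) := by
  set α := theta m x with hα
  set β := theta m y with hβ
  set r := rad m x with hr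
  set ρ := rad m y with hρ
  have hxa := ia_eq x
  have hxb := ib_eq x
  have hya := ia_eq y
  have hyb := ib_eq y
  rw [← hα, ← hr] at hxa hxb
  rw [← hβ, ← hρ] at hya hyb
  constructor
  · rintro ⟨t, ⟨ht0, ht1⟩, l, hl, ha, hb⟩
    simp only [Pi.add_apply, Pi.smul_apply, smul_eq_mul] at ha hb
    rw [hxa, hya] at ha
    rw [hxb, hyb] at hb
    have e1 : (t * r) * Real.sin (α - β) = l * Real.sin (φ - β) := by
      rw [Real.sin_sub, Real.sin_sub]
      linear_combination (Real.cos β) * hb - (Real.sin β) * ha
    have e2 : ((1 - t) * ρ) * Real.sin (α - β) = l * Real.sin (α - φ) := by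
      rw [Real.sin_sub, Real.sin_sub]
      linear_combination (Real.sin α) * ha - (Real.cos α) * hb
    have p1 : 0 < t * r := mul_pos ht0 hx
    have p2 : 0 < (1 - t) * ρ := mul_pos (by linarith) hy
    rcases lt_or_gt_of_ne hs with h | h
    · right
      refine ⟨?_, ?_, h⟩
      · have : l * Real.sin (α - φ) < 0 := by rw [← e2]; exact mul_neg_of_pos_of_neg p2 h
        by_contra hc
        push Not at hc
        linarith [mul_nonneg hl.le hc]
      · have : l * Real.sin (φ - β) < 0 := by rw [← e1]; exact mul_neg_of_pos_of_neg p1 h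
        by_contra hc
        push Not at hc
        linarith [mul_nonneg hl.le hc]
    · left
      refine ⟨?_, ?_, h⟩
      · have : 0 < l * Real.sin (α - φ) := by rw [← e2]; exact mul_pos p2 h
        exact pos_of_mul_pos_right this hl.le
      · have : 0 < l * Real.sin (φ - β) := by rw [← e1]; exact mul_pos p1 h
        exact pos_of_mul_pos_right this hl.le
  · intro h
    have hp : 0 < Real.sin (φ - β) / (r * Real.sin (α - β)) := by
      rcases h with ⟨_, h2, h3⟩ | ⟨_, h2, h3⟩
      · exact div_pos h2 (mul_pos hx h3)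
      · exact div_pos_of_neg_of_neg h2 (mul_neg_of_pos_of_neg hx h3)
    have hq : 0 < Real.sin (α - φ) / (ρ * Real.sin (α - β)) := by
      rcases h with ⟨h1, _, h3⟩ | ⟨h1, _, h3⟩
      · exact div_pos h1 (mul_pos hy h3)
      · exact div_pos_of_neg_of_neg h1 (mul_neg_of_pos_of_neg hy h3)
    set p := Real.sin (φ - β) / (r * Real.sin (α - β)) with hpdef
    set q := Real.sin (α - φ) / (ρ * Real.sin (α - β)) with hqdef
    have hpq : 0 < p + q := add_pos hp hq
    have ep : p * r * Real.sin (α - β) = Real.sin (φ - β) := by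
      rw [hpdef]; field_simp
    have eq' : q * ρ * Real.sin (α - β) = Real.sin (α - φ) := by
      rw [hqdef]; field_simp
    -- the two coordinate identities
    have i1 : q * ρ * Real.cos β + p * r * Real.cos α = Real.cos φ := by
      apply mul_right_cancel₀ hs
      have : Real.sin (α - φ) * Real.cos β + Real.sin (φ - β) * Real.cos α =
          Real.cos φ * Real.sin (α - β) := by
        rw [Real.sin_sub, Real.sin_sub, Real.sin_sub]; ring
      rw [← this, ← ep, ← eq']; ring
    have i2 : q * ρ * Real.sin β + p * r * Real.sin α = Real.sin φ := by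
      apply mul_right_cancel₀ hs
      have : Real.sin (α - φ) * Real.sin β + Real.sin (φ - β) * Real.sin α =
          Real.sin φ * Real.sin (α - β) := by
        rw [Real.sin_sub, Real.sin_sub, Real.sin_sub]; ring
      rw [← this, ← ep, ← eq']; ring
    refine ⟨p / (p + q), ⟨div_pos hp hpq, (div_lt_one hpq).2 (by linarith)⟩, 1 / (p + q),
      one_div_pos.2 hpq, ?_, ?_⟩
    · simp only [Pi.add_apply, Pi.smul_apply, smul_eq_mul]
      rw [hxa, hya, ← i1]
      field_simp
      ring
    · simp only [Pi.add_apply, Pi.smul_apply, smul_eq_mul]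
      rw [hxb, hyb, ← i2]
      field_simp
      ring

open Classical in
lemma hit_sign (φ : ℝ) (y x : Fin (m + 1 + 1) → ℝ) (hx : 0 < rad m x)
    (hy : 0 < rad m y) (hs : Real.sin (theta m x - theta m y) ≠ 0) :
    (if hit m φ y x then (SignType.sign (om m φ x) : ℤ) else 0) =
      cr φ (theta m y) (theta m x) := by
  unfold cr
  rw [om_eq]
  by_cases h : hit m φ y x
  · rw [if_pos h]
    rw [hit_iff φ y x hx hy hs] at h
    rcases h with h | h
    · rw [if_pos h, sign_pos (mul_pos hx h.1)]; rfl
    · have h' : ¬ (0 < Real.sin (theta m x - φ) ∧ 0 < Real.sin (φ - theta m y) ∧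
          0 < Real.sin (theta m x - theta m y)) := fun h' => by linarith [h.1, h'.1]
      rw [if_neg h', if_pos h, sign_neg (mul_neg_of_pos_of_neg hx h.1)]; rfl
  · rw [if_neg h]
    rw [hit_iff φ y x hx hy hs] at h
    push Not at h
    rw [if_neg (fun h' => absurd h'.2.2 (not_lt.2 (h.1 h'.1 h'.2.1))),
      if_neg (fun h' => absurd h'.2.2 (not_lt.2 (h.2 h'.1 h'.2.1)))]

lemma om_zero (x : Fin (m + 1 + 1) → ℝ) : om m 0 x = x (ib m) := by
  simp [om]

open Classical in
/-- the index of the point with respect to the rotating polyhedron -/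
noncomputable def lev (m : ℕ) (δ : ℝ) (x : Fin (m + 1 + 1) → ℝ) : ℤ :=
  if theta m x < δ then 1 else 0

lemma onRay_mem_image (δ : ℝ) (b : Bool)
    (y : (Fin (m + 1 + 1) → ℝ)) (hs : OnSphere y) (l : ℝ) (hl : 0 ≤ l)
    (ha : y (ia m) = l * Real.cos (ang δ b)) (hb : y (ib m) = l * Real.sin (ang δ b)) :
    y ∈ image (crossPolytope (m + 1)) (lune m δ) := by
  classical
  set s : Fin (m + 1) → Bool := Fin.snoc (α := fun _ => Bool)
      (fun i : Fin m => decide (y i.castSucc.castSucc < 0)) b with hs'
  have hsl : s (Fin.last m) = b := by rw [hs', Fin.snoc_last]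
  have hsc : ∀ i : Fin m, s i.castSucc = decide (y i.castSucc.castSucc < 0) :=
    fun i => by rw [hs', Fin.snoc_castSucc]
  refine ⟨hs, facet s, by simp [crossPolytope], Fin.snoc (α := fun _ => ℝ)
    (fun i : Fin m => |y i.castSucc.castSucc|) l, ?_, ?_⟩
  · intro i
    refine Fin.lastCases ?_ (fun i => ?_) i
    · rw [Fin.snoc_last]; exact hl
    · rw [Fin.snoc_castSucc]; exact abs_nonneg _
  · ext j
    rcases coord_cases j with ⟨k, rfl⟩ | rfl | rfl
    · rw [sum_facet_apply_cast, Fin.snoc_castSucc, hsc]
      by_cases h : y k.castSucc.castSucc < 0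
      · simp only [h, decide_true, rs, if_true]
        rw [abs_of_neg h]; ring
      · simp only [h, decide_false, rs, Bool.false_eq_true, if_false]
        rw [abs_of_nonneg (not_lt.1 h)]; ring
    · rw [sum_facet_apply_ia, Fin.snoc_last, hsl, ha]
    · rw [sum_facet_apply_ib, Fin.snoc_last, hsl, hb]

lemma image_subset (δ : ℝ) (y : (Fin (m + 1 + 1) → ℝ))
    (h : y ∈ image (crossPolytope (m + 1)) (lune m δ)) :
    ∃ b, om m (ang δ b) y = 0 := by
  obtain ⟨_, F, hF, c, _, hy⟩ := h
  obtain ⟨s, rfl⟩ := mem_facets hF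
  refine ⟨s (Fin.last m), ?_⟩
  unfold om
  rw [hy, sum_facet_apply_ia, sum_facet_apply_ib]
  ring

lemma not_mem_image (δ : ℝ) (y : (Fin (m + 1 + 1) → ℝ)) (hsp : OnSphere y)
    (h : y ∉ image (crossPolytope (m + 1)) (lune m δ)) :
    0 < rad m y ∧ theta m y < 2 * Real.pi ∧ theta m y ≠ δ := by
  refine ⟨?_, ?_, ?_⟩
  · rcases (rad_nonneg y).lt_or_eq with h1 | h1
    · exact h1
    · exfalso
      apply h
      apply onRay_mem_image δ false y hsp 0 le_rfl
      · rw [ia_eq y, ← h1]; simp
      · rw [ib_eq y, ← h1]; simp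
  · rcases (theta_le y).lt_or_eq with h1 | h1
    · exact h1
    · exfalso
      apply h
      apply onRay_mem_image δ false y hsp (rad m y) (rad_nonneg _)
      · rw [ia_eq y, h1]; simp [ang]
      · rw [ib_eq y, h1]; simp [ang]
  · intro h1
    apply h
    apply onRay_mem_image δ true y hsp (rad m y) (rad_nonneg _)
    · rw [ia_eq y, h1]; simp [ang]
    · rw [ib_eq y, h1]; simp [ang]

/-- the index formula for generic `x` -/
lemma ind_eq_lev (δ : ℝ) (hδ0 : 0 ≤ δ) (hδ : δ ≤ 2 * Real.pi)
    (y x : (Fin (m + 1 + 1) → ℝ)) (hsp : OnSphere y)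
    (hy : y ∉ image (crossPolytope (m + 1)) (lune m δ))
    (h1 : ∀ b, om m (ang δ b) x ≠ 0)
    (h2 : ∀ b, om m (ang δ b) y ≠ 0 → ∀ i : Fin m,
      om m (ang δ b) y * x i.castSucc.castSucc -
      y i.castSucc.castSucc * om m (ang δ b) x ≠ 0)
    (h3 : y (ia m) * x (ib m) - y (ib m) * x (ia m) ≠ 0) :
    ind (crossPolytope (m + 1)) (lune m δ) y x = lev m δ x - lev m δ y := by
  classical
  obtain ⟨hy1, hy2, hy3⟩ := not_mem_image δ y hsp hy
  have hx0 : rad m x ≠ 0 := by
    intro h
    apply h1 false
    rw [om_eq, h, zero_mul]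
  have hx : 0 < rad m x := lt_of_le_of_ne (rad_nonneg _) hx0.symm
  have hs : Real.sin (theta m x - theta m y) ≠ 0 := by
    intro h
    apply h3
    rw [ia_eq y, ib_eq y, ia_eq x, ib_eq x]
    rw [Real.sin_sub] at h
    linear_combination (rad m x * rad m y) * h
  have h4 : Real.sin (theta m x) ≠ 0 := by
    intro h
    apply h1 false
    rw [om_eq]
    simp [ang, h]
  have h5 : Real.sin (theta m x - δ) ≠ 0 := by
    intro h
    apply h1 true
    rw [om_eq]
    simp [ang, h]
  have h6 : theta m x < 2 * Real.pi := by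
    rcases (theta_le x).lt_or_eq with h | h
    · exact h
    · exact absurd (by rw [h]; simp) h4
  rw [ind_eq δ y x h1 h2, hit_sign 0 y x hx hy1 hs, hit_sign δ y x hx hy1 hs,
    cr_sub (theta_pos _) h6 (theta_pos _) hy2 hδ0 hδ hy3 h4 h5 hs]
  unfold lev
  congr


/-! ### Integration -/

open scoped Pointwise in
lemma null_of_linear {d : ℕ} (f : EuclideanSpace ℝ (Fin d) →ₗ[ℝ] ℝ) (hf : f ≠ 0) :
    ∀ᵐ x ∂(volume : Measure (EuclideanSpace ℝ (Fin d))).toSphere, f x.1 ≠ 0 := by
  have hmeas : MeasurableSet {x : Metric.sphere (0 : EuclideanSpace ℝ (Fin d)) 1 |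
      f x.1 = 0} := by
    have hc : Continuous (fun x : Metric.sphere (0 : EuclideanSpace ℝ (Fin d)) 1 =>
        f x.1) := (LinearMap.continuous_of_finiteDimensional f).comp continuous_subtype_val
    exact (isClosed_eq hc continuous_const).measurableSet
  rw [ae_iff]
  simp only [not_not]
  rw [Measure.toSphere_apply' _ hmeas]
  have h : (volume : Measure (EuclideanSpace ℝ (Fin d)))
      (Set.Ioo (0 : ℝ) 1 • (Subtype.val '' {x : Metric.sphere (0 : EuclideanSpace ℝ
        (Fin d)) 1 | f x.1 = 0})) = 0 := by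
    apply measure_mono_null (t := (LinearMap.ker f : Set (EuclideanSpace ℝ (Fin d))))
    · rintro z ⟨t, _, w, ⟨x, hx, rfl⟩, rfl⟩
      simp only [Set.mem_ofPred_eq] at hx
      simp [hx]
    · apply Measure.addHaar_submodule
      intro h
      exact hf (LinearMap.ker_eq_top.1 h)
  rw [h, mul_zero]

lemma measurable_coe {d : ℕ} : Measurable
    (fun x : Metric.sphere (0 : EuclideanSpace ℝ (Fin d)) 1 => x.1.ofLp) := by
  have : Continuous (fun x : Metric.sphere (0 : EuclideanSpace ℝ (Fin d)) 1 => x.1.ofLp) := by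
    fun_prop
  exact this.measurable

instance isFiniteMeasure_surf (d : ℕ) : IsFiniteMeasure (surf d) := by
  unfold surf; infer_instance

lemma surf_univ (d : ℕ) : surf d Set.univ =
    (volume : Measure (EuclideanSpace ℝ (Fin d))).toSphere Set.univ := by
  unfold surf
  rw [Measure.map_apply measurable_coe MeasurableSet.univ, Set.preimage_univ]

lemma surf_ne_zero (m : ℕ) : surf (m + 1 + 1) ≠ 0 := by
  intro h
  have h1 := surf_univ (m + 1 + 1)
  rw [h] at h1
  exact Measure.toSphere_ne_zero _ (Measure.measure_univ_eq_zero.1 h1.symm)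

/-- a non-zero linear functional vanishes almost nowhere on the sphere -/
lemma ae_linear (c : Fin (m + 1 + 1) → ℝ) (hc : c ≠ 0) :
    ∀ᵐ x ∂(surf (m + 1 + 1)), ∑ j, c j * x j ≠ 0 := by
  let f : EuclideanSpace ℝ (Fin (m + 1 + 1)) →ₗ[ℝ] ℝ :=
    { toFun := fun x => ∑ j, c j * x j
      map_add' := fun x y => by
        simp only [PiLp.add_apply, mul_add, Finset.sum_add_distrib]
      map_smul' := fun t x => by
        simp only [PiLp.smul_apply, smul_eq_mul, RingHom.id_apply, Finset.mul_sum]
        exact Finset.sum_congr rfl fun j _ => by ring }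
  have hf : f ≠ 0 := by
    intro h
    apply hc
    funext j
    have := congrArg (fun g : EuclideanSpace ℝ (Fin (m + 1 + 1)) →ₗ[ℝ] ℝ =>
      g (EuclideanSpace.single j 1)) h
    simpa [f, PiLp.single_apply] using this
  unfold surf
  rw [ae_map_iff measurable_coe.aemeasurable]
  · exact null_of_linear f hf
  · have h1 : Continuous (fun x : Fin (m + 1 + 1) → ℝ => ∑ j, c j * x j) := by fun_prop
    exact (isOpen_ne_fun h1 continuous_const).measurableSet

lemma ae_onSphere : ∀ᵐ x ∂(surf (m + 1 + 1)), OnSphere x := by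
  unfold surf
  rw [ae_map_iff measurable_coe.aemeasurable]
  · refine ae_of_all _ fun x => ?_
    have h := mem_sphere_zero_iff_norm.1 x.2
    unfold OnSphere
    have h2 := EuclideanSpace.norm_sq_eq x.1
    rw [h, one_pow] at h2
    refine Eq.trans ?_ h2.symm
    exact Finset.sum_congr rfl fun k _ => by simp
  · unfold OnSphere
    have h1 : Continuous (fun x : Fin (m + 1 + 1) → ℝ => ∑ j, x j ^ 2) := by fun_prop
    exact (isClosed_eq h1 continuous_const).measurableSet

/-- a combination of two coordinates -/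
lemma ae_two {i j : Fin (m + 1 + 1)} (hij : i ≠ j) (p q : ℝ) (h : p ≠ 0 ∨ q ≠ 0) :
    ∀ᵐ x ∂(surf (m + 1 + 1)), p * x i + q * x j ≠ 0 := by
  have hc : (fun k : Fin (m + 1 + 1) => if k = i then p else if k = j then q else 0) ≠ 0 := by
    intro h0
    rcases h with h | h
    · apply h
      have := congrFun h0 i
      simpa using this
    · apply h
      have := congrFun h0 j
      simpa [hij.symm] using this
  filter_upwards [ae_linear _ hc] with x hx
  intro h0
  apply hx
  rw [Finset.sum_eq_add i j hij]
  · simp only [if_true, if_neg hij.symm]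
    exact h0
  · intro k _ hk
    simp [hk.1, hk.2]
  · simp
  · simp

lemma cos_or_sin (φ : ℝ) : -Real.sin φ ≠ 0 ∨ Real.cos φ ≠ 0 := by
  by_contra h
  push Not at h
  have := Real.sin_sq_add_cos_sq φ
  rw [h.2, neg_eq_zero.1 h.1] at this
  norm_num at this

lemma ae_om (φ : ℝ) : ∀ᵐ x ∂(surf (m + 1 + 1)), om m φ x ≠ 0 := by
  filter_upwards [ae_two (m := m) ia_ne_ib (-Real.sin φ) (Real.cos φ) (cos_or_sin φ)] with x hx
  intro h
  apply hx
  unfold om at h
  linarith

lemma ae_three (φ c d : ℝ) (hd : d ≠ 0) (i : Fin m) :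
    ∀ᵐ x ∂(surf (m + 1 + 1)), d * x i.castSucc.castSucc - c * om m φ x ≠ 0 := by
  have hia : i.castSucc.castSucc ≠ ia m := by
    simp only [ia, ne_eq, Fin.ext_iff, Fin.val_castSucc, Fin.val_last]; omega
  have hib : i.castSucc.castSucc ≠ ib m := by
    simp only [ib, ne_eq, Fin.ext_iff, Fin.val_castSucc, Fin.val_last]; omega
  have hc : (fun k : Fin (m + 1 + 1) => (if k = i.castSucc.castSucc then d else 0) +
      ((if k = ib m then -c * Real.cos φ else 0) + (if k = ia m then c * Real.sin φ else 0))) ≠
        0 := by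
    intro h0
    apply hd
    have := congrFun h0 i.castSucc.castSucc
    simpa [hia, hib] using this
  filter_upwards [ae_linear _ hc] with x hx
  intro h0
  apply hx
  simp only [add_mul, Finset.sum_add_distrib, ite_mul, zero_mul, Finset.sum_ite_eq',
    Finset.mem_univ, if_true]
  unfold om at h0
  linarith

lemma ae_ind (δ : ℝ) (hδ0 : 0 ≤ δ) (hδ : δ ≤ 2 * Real.pi)
    (y : (Fin (m + 1 + 1) → ℝ)) (hsp : OnSphere y)
    (hy : y ∉ image (crossPolytope (m + 1)) (lune m δ)) :
    ∀ᵐ x ∂(surf (m + 1 + 1)), ind (crossPolytope (m + 1)) (lune m δ) y x =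
      lev m δ x - lev m δ y := by
  have hy1 := (not_mem_image δ y hsp hy).1
  have e1 : ∀ᵐ x ∂(surf (m + 1 + 1)), ∀ b, om m (ang δ b) x ≠ 0 := by
    rw [ae_all_iff]
    intro b
    exact ae_om _
  have e2 : ∀ᵐ x ∂(surf (m + 1 + 1)), ∀ b, ∀ i : Fin m, om m (ang δ b) y ≠ 0 →
      om m (ang δ b) y * x i.castSucc.castSucc -
      y i.castSucc.castSucc * om m (ang δ b) x ≠ 0 := by
    rw [ae_all_iff]
    intro b
    rw [ae_all_iff]
    intro i
    by_cases h : om m (ang δ b) y = 0
    · exact ae_of_all _ fun x hx => absurd h hx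
    · filter_upwards [ae_three (ang δ b) (y i.castSucc.castSucc) _ h i] with x hx _
      exact hx
  have e3 : ∀ᵐ x ∂(surf (m + 1 + 1)), y (ia m) * x (ib m) - y (ib m) * x (ia m) ≠ 0 := by
    have hne : -y (ib m) ≠ 0 ∨ y (ia m) ≠ 0 := by
      by_contra h
      push Not at h
      have h1 : rad m y = 0 := by
        unfold rad
        rw [norm_eq_zero]
        apply Complex.ext
        · exact h.2
        · exact neg_eq_zero.1 h.1
      linarith
    filter_upwards [ae_two (m := m) ia_ne_ib _ _ hne] with x hx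
    intro h
    apply hx
    linarith
  filter_upwards [e1, e2, e3] with x h1 h2 h3
  exact ind_eq_lev δ hδ0 hδ y x hsp hy h1 (fun b hb i => h2 b i hb) h3

lemma measurable_theta : Measurable
    (fun x : (Fin (m + 1 + 1) → ℝ) => theta m x) := by
  have h1 : Continuous (fun x : (Fin (m + 1 + 1) → ℝ) =>
      -(⟨x (ia m), x (ib m)⟩ : ℂ)) := by
    have : (fun x : (Fin (m + 1 + 1) → ℝ) =>
      -(⟨x (ia m), x (ib m)⟩ : ℂ)) =
      fun x => -((x (ia m) : ℂ) + (x (ib m) : ℂ) * Complex.I) := by
      funext x
      congr 1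
      apply Complex.ext <;> simp
    rw [this]
    have c1 : ∀ j, Continuous (fun x : (Fin (m + 1 + 1) → ℝ) =>
      x j) := fun j => by fun_prop
    have c2 := c1 (ia m)
    have c3 := c1 (ib m)
    fun_prop
  exact (Complex.measurable_arg.comp h1.measurable).add_const _

lemma measurable_lev (δ : ℝ) : Measurable
    (fun x : (Fin (m + 1 + 1) → ℝ) => (lev m δ x : ℝ)) := by
  classical
  have : (fun x : (Fin (m + 1 + 1) → ℝ) =>
      (lev m δ x : ℝ)) = fun x => if theta m x < δ then 1 else 0 := by
    funext x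
    unfold lev
    split_ifs <;> simp
  rw [this]
  exact Measurable.ite (measurableSet_lt measurable_theta measurable_const) measurable_const
    measurable_const

lemma norm_lev_le (δ : ℝ) (x : Fin (m + 1 + 1) → ℝ) :
    ‖(lev m δ x : ℝ)‖ ≤ 1 := by
  unfold lev
  split_ifs <;> simp

lemma integrable_lev (δ : ℝ) : Integrable
    (fun x : (Fin (m + 1 + 1) → ℝ) => (lev m δ x : ℝ))
    (surf (m + 1 + 1)) :=
  Integrable.of_bound (measurable_lev δ).aestronglyMeasurable 1
    (ae_of_all _ fun x => norm_lev_le δ x)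

/-- the volume function of the rotating polyhedron -/
noncomputable def Wf (m : ℕ) (δ : ℝ) : ℝ := ∫ x, (lev m δ x : ℝ) ∂(surf (m + 1 + 1))

lemma ae_theta_ne (δ : ℝ) : ∀ᵐ x ∂(surf (m + 1 + 1)), theta m x ≠ δ := by
  filter_upwards [ae_om (m := m) δ] with x hx
  intro h
  apply hx
  rw [om_eq, h]
  simp

lemma continuous_Wf : Continuous (Wf m) := by
  rw [continuous_iff_continuousAt]
  intro δ
  unfold Wf
  apply continuousAt_of_dominated (bound := fun _ => (1 : ℝ))
  · exact Filter.Eventually.of_forall fun δ' => (measurable_lev δ').aestronglyMeasurable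
  · exact Filter.Eventually.of_forall fun δ' => ae_of_all _ fun x => norm_lev_le δ' x
  · exact integrable_const _
  · filter_upwards [ae_theta_ne (m := m) δ] with x hx
    rcases lt_or_gt_of_ne hx with h | h
    · have : (fun δ' => (lev m δ' x : ℝ)) =ᶠ[nhds δ] fun _ => 1 := by
        filter_upwards [lt_mem_nhds h] with δ' h'
        simp [lev, h']
      exact continuousAt_const.congr this.symm
    · have : (fun δ' => (lev m δ' x : ℝ)) =ᶠ[nhds δ] fun _ => 0 := by
        filter_upwards [gt_mem_nhds h] with δ' h'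
        simp [lev, not_lt.2 h'.le]
      exact continuousAt_const.congr this.symm

lemma Wf_zero : Wf m 0 = 0 := by
  unfold Wf
  have : ∀ x : (Fin (m + 1 + 1) → ℝ),
      (lev m 0 x : ℝ) = 0 := by
    intro x
    simp [lev, not_lt.2 (theta_pos x).le]
  simp only [this]
  simp

lemma sphereVol_eq : sphereVol (m + 1) = (surf (m + 1 + 1)).real Set.univ := rfl

lemma sphereVol_pos : 0 < sphereVol (m + 1) := by
  rw [sphereVol_eq, measureReal_def]
  apply ENNReal.toReal_pos
  · intro h
    exact surf_ne_zero m (Measure.measure_univ_eq_zero.1 h)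
  · exact measure_ne_top _ _

lemma Wf_two_pi : Wf m (2 * Real.pi) = sphereVol (m + 1) := by
  unfold Wf
  have : (fun x : (Fin (m + 1 + 1) → ℝ) =>
      (lev m (2 * Real.pi) x : ℝ)) =ᵐ[surf (m + 1 + 1)] fun _ => 1 := by
    filter_upwards [ae_theta_ne (m := m) (2 * Real.pi)] with x hx
    simp [lev, lt_of_le_of_ne (theta_le x) hx]
  rw [integral_congr_ae this, integral_const, smul_eq_mul, mul_one, sphereVol_eq]

lemma volFrom_eq (δ : ℝ) (hδ0 : 0 ≤ δ) (hδ : δ ≤ 2 * Real.pi)
    (y : Fin (m + 1 + 1) → ℝ) (hsp : OnSphere y)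
    (hy : y ∉ image (crossPolytope (m + 1)) (lune m δ)) :
    volFrom (crossPolytope (m + 1)) (lune m δ) y =
      Wf m δ - (lev m δ y : ℝ) * sphereVol (m + 1) := by
  unfold volFrom
  have h : (fun x => (ind (crossPolytope (m + 1)) (lune m δ) y x : ℝ)) =ᵐ[surf (m + 1 + 1)]
      fun x => (lev m δ x : ℝ) - (lev m δ y : ℝ) := by
    filter_upwards [ae_ind δ hδ0 hδ y hsp hy] with x hx
    rw [hx]; push_cast; ring
  rw [integral_congr_ae h, integral_sub (integrable_lev δ) (integrable_const _), integral_const,
    smul_eq_mul, sphereVol_eq, Wf]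
  ring

lemma exists_not_mem (δ : ℝ) : ∃ y, OnSphere y ∧
    y ∉ image (crossPolytope (m + 1)) (lune m δ) := by
  have h : ∀ᵐ y ∂(surf (m + 1 + 1)), OnSphere y ∧
      y ∉ image (crossPolytope (m + 1)) (lune m δ) := by
    have e1 : ∀ᵐ x ∂(surf (m + 1 + 1)), ∀ b, om m (ang δ b) x ≠ 0 := by
      rw [ae_all_iff]
      intro b
      exact ae_om _
    filter_upwards [e1, ae_onSphere] with y hy hsp
    refine ⟨hsp, fun hmem => ?_⟩
    obtain ⟨b, hb⟩ := image_subset δ y hmem
    exact hy b hb
  have hne : (ae (surf (m + 1 + 1))).NeBot := by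
    rw [ae_neBot]
    exact surf_ne_zero m
  exact h.exists

lemma isOrientedVolume (δ : ℝ) (hδ0 : 0 ≤ δ) (hδ : δ ≤ 2 * Real.pi) :
    IsOrientedVolume (crossPolytope (m + 1)) (lune m δ) (Wf m δ) := by
  refine ⟨exists_not_mem δ, fun y hsp hy => ⟨-lev m δ y, ?_⟩⟩
  rw [volFrom_eq δ hδ0 hδ y hsp hy]
  push_cast; ring

/-- the closed curve -/
noncomputable def curve (m : ℕ) (t : unitInterval) : Fin (m + 1) × Bool → Fin (m + 1 + 1) → ℝ :=
  lune m (2 * Real.pi * t)

lemma continuous_curve : Continuous (curve m) := continuous_lune.comp (by fun_prop)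

lemma curve_closed : curve m 0 = curve m 1 := by
  funext v
  simp only [curve, Set.Icc.coe_zero, Set.Icc.coe_one, mul_zero, mul_one]
  unfold lune
  split_ifs
  · unfold wv ang
    split_ifs <;> simp
  · rfl

lemma param_mem (t : unitInterval) : 0 ≤ 2 * Real.pi * (t : ℝ) ∧
    2 * Real.pi * (t : ℝ) ≤ 2 * Real.pi := by
  have hpi := Real.pi_pos
  have h0 := t.2.1
  have h1 := t.2.2
  constructor
  · positivity
  · nlinarith

lemma hasNonzeroIncrement (δ : ℝ) : HasNonzeroIncrement (crossPolytope (m + 1)) (lune m δ) := by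
  refine ⟨curve m, continuous_curve, curve_closed, fun t => lune_mem_Conf _ _,
    fun t => Wf m (2 * Real.pi * t), continuous_Wf.comp (by fun_prop),
    fun t => isOrientedVolume _ (param_mem t).1 (param_mem t).2, 1, one_ne_zero, ?_⟩
  simp only [Set.Icc.coe_zero, Set.Icc.coe_one, mul_zero, mul_one]
  rw [Wf_two_pi, Wf_zero]
  push_cast; ring

end lune

/-- The existence of a closed curve with non-zero increment excludes a real-valued branch. -/
lemma not_hasRealBranch {V : Type} {n : ℕ} (K : OrientedPseudomanifold V n)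
    (P₀ : V → Fin (n + 1) → ℝ)
    (hpos : sphereVol n ≠ 0) (h : HasNonzeroIncrement K P₀) : ¬ HasRealBranch K P₀ := by
  rintro ⟨f, hf, hfv⟩
  obtain ⟨γ, hcγ, hγ, hconf, W, hcW, hW, k, hk, hinc⟩ := h
  -- the difference is an integer multiple of the volume of the sphere
  have hdiff : ∀ t, ∃ j : ℤ, f (γ t) - W t = j * sphereVol n := by
    intro t
    obtain ⟨⟨y, hsp, hy⟩, h1⟩ := hfv _ (hconf t)
    obtain ⟨a, ha⟩ := h1 y hsp hy
    obtain ⟨b, hb⟩ := (hW t).2 y hsp hy
    refine ⟨b - a, ?_⟩
    push_cast
    linarith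
  choose j hj using hdiff
  have hcf : Continuous (fun t => f (γ t)) := by
    rw [← continuousOn_univ]
    exact hf.comp hcγ.continuousOn (fun t _ => hconf t)
  have hcj : Continuous (fun t => ((j t : ℤ) : ℝ)) := by
    have : (fun t => ((j t : ℤ) : ℝ)) = fun t => (f (γ t) - W t) / sphereVol n := by
      funext t
      rw [hj t]
      field_simp
    rw [this]
    exact (hcf.sub hcW).div_const _
  have hcj' : Continuous j := Int.isClosedEmbedding_coe_real.isEmbedding.continuous_iff.2 hcj
  have hconst : j 0 = j 1 := PreconnectedSpace.constant inferInstance hcj'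
  have h0 := hj 0
  have h1 := hj 1
  rw [hγ, hconst] at h0
  have h2 : W 1 - W 0 = 0 := by linarith
  rw [hinc] at h2
  rcases mul_eq_zero.1 h2 with h3 | h3
  · exact hk (by exact_mod_cast h3)
  · exact hpos h3

/-- For every `n ≥ 3` there is a flexible polyhedron in `S^n` with a closed curve in its
configuration space along which the increment of the oriented volume is a non-zero multiple of
`vol(S^n)`; its oriented volume has no single-valued real-valued branch. -/
theorem result : ∀ n : ℕ, 3 ≤ n → ∃ (V : Type) (K : OrientedPseudomanifold V n)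
    (P₀ : V → Fin (n + 1) → ℝ),
    IsPolyhedron K P₀ ∧ Flexible K P₀ ∧ HasNonzeroIncrement K P₀ ∧ ¬ HasRealBranch K P₀ := by
  intro n hn
  obtain ⟨m, rfl⟩ : ∃ m, n = m + 1 := ⟨n - 1, by omega⟩
  exact ⟨Fin (m + 1) × Bool, crossPolytope (m + 1), lune m (Real.pi / 2), lune_isPolyhedron _,
    lune_flexible, hasNonzeroIncrement _,
    not_hasRealBranch _ _ sphereVol_pos.ne' (hasNonzeroIncrement _)⟩

end Pool.Agent.Results.MP_cf0a62_gt.NonzeroIncrementAllDims
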